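import Pool.Agent.Work.MP_85af13_lc.G.E2.Game

/-!
Values of the chains of average nodes.
-/

set_option autoImplicit false
set_option linter.unusedSimpArgs false

namespace Pool.Agent.Work.MP_85af13_lc.G.E2

open Pool.Agent.Work.PolyTime

/-- The fraction given by the first `j` digits (the last one is the first digit after the
point). -/
noncomputable def fv (w : List Bool) (j : ℕ) : ℝ := (binVal (w.take j) : ℝ) / 2 ^ j

/-- `0` or `1`. -/
def b01 (b : Bool) : ℝ := if b then 1 else 0

theorem binVal_take_succ (w : List Bool) : ∀ j : ℕ,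
    binVal (w.take (j + 1)) = binVal (w.take j) + 2 ^ j * (w.getD j false).toNat := by
  induction w with
  | nil => intro j; simp [binVal]
  | cons b w ih =>
    intro j
    cases j with
    | zero => simp [binVal]
    | succ j =>
      rw [List.take_succ_cons, List.take_succ_cons, binVal, binVal, ih j, List.getD_cons_succ,
        pow_succ]
      ring

theorem fv_zero (w : List Bool) : fv w 0 = 0 := by simp [fv, binVal]

theorem fv_succ (w : List Bool) (j : ℕ) :
    fv w (j + 1) = (b01 (w.getD j false) + fv w j) / 2 := by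
  unfold fv
  rw [binVal_take_succ, pow_succ]
  have h : (((w.getD j false).toNat : ℕ) : ℝ) = b01 (w.getD j false) := by
    cases w.getD j false <;> simp [b01]
  push_cast
  rw [h]
  field_simp
  ring

theorem fv_full (w : List Bool) (L : ℕ) (h : w.length ≤ L) : fv w L = (binVal w : ℝ) / 2 ^ L := by
  unfold fv
  rw [List.take_of_length_le h]

/-- Value of the reward node with `j` remaining digits. -/
noncomputable def rwv (s : Bool) (w : List Bool) (j : ℕ) : ℝ := if s then 1 - fv w j else fv w j

theorem rwv_zero (s : Bool) (w : List Bool) : rwv s w 0 = b01 s := by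
  cases s <;> simp [rwv, fv_zero, b01]

theorem rwv_succ (s : Bool) (w : List Bool) (j : ℕ) :
    2 * rwv s w (j + 1) = b01 (xor s (w.getD j false)) + rwv s w j := by
  unfold rwv
  rw [fv_succ]
  cases s <;> cases w.getD j false <;> simp [b01] <;> ring

/-- Value of the first reward node. -/
noncomputable def rw1 (e : WEdge) (L : ℕ) : ℝ := 1 / 2 + (wgt e : ℝ) / 2 ^ (L + 1)

theorem rw1_eq (e : WEdge) (L : ℕ) (h : e.2.2.length ≤ L) :
    2 * rw1 e L = b01 (xor e.2.1 true) + rwv e.2.1 e.2.2 L := by
  unfold rw1 rwv wgt
  rw [fv_full _ _ h, pow_succ]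
  have h2 : (2 : ℝ) ^ L ≠ 0 := by positivity
  cases hs : e.2.1
  · simp [b01]; field_simp
  · simp [b01]; field_simp; ring

/-- Value of the node `(v, i, c)` for `c > K`. -/
noncomputable def rv (A : Arena) (v i c : ℕ) : ℝ :=
  if c = eK A + 1 then rw1 (eE A v i) (eL A) else rwv (eE A v i).2.1 (eE A v i).2.2 (eB A - c)

theorem eE_len (A : Arena) (v i : ℕ) : (eE A v i).2.2.length ≤ eL A := by
  unfold eE
  by_cases h : i < (edges A v).length
  · rw [List.getD_eq_getElem _ _ h]
    have := edge_len A (List.getElem_mem h)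
    omega
  · rw [List.getD_eq_default _ _ (by omega)]
    simp

theorem rv_step (A : Arena) (v i c : ℕ) (h1 : eK A < c) (h2 : c < eB A) :
    2 * rv A v i c = b01 (eBit A v i c) +
      (if c + 1 = eB A then b01 (eE A v i).2.1 else rv A v i (c + 1)) := by
  have hB : eB A = eK A + eL A + 2 := rfl
  unfold rv eBit
  by_cases h3 : c = eK A + 1
  · subst h3
    simp only [decide_true, cond_true, if_true]
    rw [rw1_eq _ _ (eE_len A v i)]
    congr 1
    by_cases h4 : eK A + 1 + 1 = eB A
    · have hL : eL A = 0 := by omega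
      rw [if_pos h4, hL, rwv_zero]
    · rw [if_neg h4, if_neg (by omega)]
      congr 1
      omega
  · simp only [h3, decide_false, cond_false, if_false]
    obtain ⟨j, hj⟩ : ∃ j, eB A - c = j + 1 := ⟨eB A - c - 1, by omega⟩
    have h5 : eB A - 1 - c = j := by omega
    rw [hj, h5, rwv_succ]
    congr 1
    by_cases h4 : c + 1 = eB A
    · have : j = 0 := by omega
      rw [if_pos h4, this, rwv_zero]
    · rw [if_neg h4, if_neg (by omega)]
      congr 1
      omega

/-- Value of the final chain with `j` remaining nodes. -/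
noncomputable def tv (A : Arena) (r : ℕ) : ℝ :=
  if r = A.length + 2 then 1 / 2 + 1 / 2 ^ eJ A else 1 / 2 ^ (A.length + 2 + eJ A - r)

theorem tv_step (A : Arena) (r : ℕ) (h1 : A.length + 2 ≤ r) (h2 : r < A.length + 2 + eJ A) :
    2 * tv A r = b01 (decide (r = A.length + 2)) +
      (if r + 1 = A.length + 2 + eJ A then 1 else tv A (r + 1)) := by
  have hJ : 3 ≤ eJ A := by unfold eJ; omega
  unfold tv
  by_cases h3 : r = A.length + 2
  · subst h3
    simp only [decide_true, if_true]
    rw [if_neg (by omega), if_neg (by omega)]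
    obtain ⟨j, hj⟩ : ∃ j, eJ A = j + 1 := ⟨eJ A - 1, by omega⟩
    have : A.length + 2 + eJ A - (A.length + 2 + 1) = j := by omega
    rw [this, hj, pow_succ]
    simp only [b01, if_true]
    field_simp
  · rw [if_neg h3, if_neg (by omega : ¬ r + 1 = A.length + 2)]
    simp only [h3, decide_false, b01]
    obtain ⟨j, hj⟩ : ∃ j, A.length + 2 + eJ A - r = j + 1 :=
      ⟨A.length + 2 + eJ A - r - 1, by omega⟩
    rw [hj]
    by_cases h4 : r + 1 = A.length + 2 + eJ A
    · have : j = 0 := by omega
      rw [if_pos h4, this]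
      norm_num
    · rw [if_neg h4]
      have : A.length + 2 + eJ A - (r + 1) = j := by omega
      rw [this, pow_succ]
      field_simp
      norm_num

end Pool.Agent.Work.MP_85af13_lc.G.E2
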