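import Pool.Agent.Work.MP_85af13_lc.G.Defs

/-!
The simple stochastic game of a min-max system (definitions only).

The game has one block of nodes for every vertex `v` and every number `i` (the `i`-th edge of
`v`); the node `(v, i, 0)` belongs to the owner of `v` and chooses the edge `i` or a later one,
the nodes `(v, i, c)` with `1 ≤ c ≤ eK A` are average nodes which lead to the target of the edge
with probability `1 - 2 ^ (-eK A)`, and the remaining ones are average nodes which win with
probability `1/2 + w / 2 ^ (eL A + 1)`, where `w` is the weight of the edge.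
-/

set_option autoImplicit false

namespace Pool.Agent.Work.MP_85af13_lc.G.E2

open Pool.Agent.Work.PolyTime
open Pool.Agent.Work.MP_62a643_lc (dv)

/-- Nodes of games. -/
abbrev GNode : Type := Option Bool × (ℕ ⊕ Bool) × (ℕ ⊕ Bool)

/-- Number of edges plus total length of the weights. -/
def eL (A : Arena) : ℕ := ((A.flatMap Prod.snd).map fun e => e.2.2.length + 1).sum

/-- Length of the chains of the discount. -/
def eK (A : Arena) : ℕ := eL A + A.length + 2

/-- Number of nodes of a block. -/
def eB (A : Arena) : ℕ := eK A + eL A + 2

/-- Number of nodes of the blocks of one vertex. -/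
def eM (A : Arena) : ℕ := eL A * eB A

/-- Number of nodes of all blocks. -/
def eT (A : Arena) : ℕ := A.length * eM A

/-- Length of the final chain. -/
def eJ (A : Arena) : ℕ := eL A + A.length + 3

/-- Number of all nodes. -/
def eP (A : Arena) : ℕ := eT A + A.length + 2 + eJ A

/-- The number of the node `(v, i, c)`. -/
def ix (A : Arena) (v i c : ℕ) : ℕ := v * eM A + i * eB A + c

/-- The `i`-th edge of `v`. -/
def eE (A : Arena) (v i : ℕ) : WEdge := (edges A v).getD i (0, false, [])

/-- The position of the vertex `v`. -/
def ePos (A : Arena) (v : ℕ) : ℕ ⊕ Bool :=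
  bif decide (edges A v = []) then Sum.inr (!owner A v) else Sum.inl (ix A v 0 0)

/-- The digit in the node `(v, i, c)`. -/
def eBit (A : Arena) (v i c : ℕ) : Bool :=
  xor (eE A v i).2.1
    (bif decide (c = eK A + 1) then true else (eE A v i).2.2.getD (eB A - 1 - c) false)

/-- The nodes of the blocks. -/
def eBlock (A : Arena) (v i c : ℕ) : GNode :=
  bif decide (c = 0) then
    (some (owner A v), Sum.inl (ix A v i 1),
      Sum.inl (bif decide (i + 2 ≤ (edges A v).length) then ix A v (i + 1) 0 else ix A v i 1))
  else bif decide (c ≤ eK A) then
    (none, ePos A (eE A v i).1, Sum.inl (ix A v i (c + 1)))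
  else
    (none, Sum.inr (eBit A v i c),
      bif decide (c + 1 = eB A) then Sum.inr (eE A v i).2.1 else Sum.inl (ix A v i (c + 1)))

/-- The remaining nodes: `r < n` (minimizer): the position of the vertex `r` or the next node;
`r = n`: one; `r = n + 1` (average): the start node; then a chain of value `1/2 + 2 ^ (-J)`. -/
def eTail (A : Arena) (r : ℕ) : GNode :=
  bif decide (r + 1 ≤ A.length) then (some false, ePos A r, Sum.inl (eT A + r + 1))
  else bif decide (r = A.length) then (some false, Sum.inr true, Sum.inr true)
  else bif decide (r = A.length + 1) then (none, Sum.inl (eT A), Sum.inl (eT A + r + 1))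
  else (none, Sum.inr (decide (r = A.length + 2)),
    bif decide (r + 1 = A.length + 2 + eJ A) then Sum.inr true else Sum.inl (eT A + r + 1))

/-- The node with the number `p`. -/
def eNode (A : Arena) (p : ℕ) : GNode :=
  bif decide (p + 1 ≤ eT A) then
    eBlock A (dv (eM A) p) (dv (eB A) (p - dv (eM A) p * eM A))
      (p - dv (eM A) p * eM A - dv (eB A) (p - dv (eM A) p * eM A) * eB A)
  else eTail A (p - eT A)

/-- The game of a min-max system. -/
def eGame (A : Arena) : SInst :=
  ((List.range (eP A)).map fun p => eNode A p, eT A + A.length + 1)

end Pool.Agent.Work.MP_85af13_lc.G.E2
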