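import Pool.Agent.Work.MP_85af13_lc.G.E2.Chains

/-!
A labelling of the game gives a solution of the min-max system.
-/

set_option autoImplicit false
set_option linter.unusedSimpArgs false

namespace Pool.Agent.Work.MP_85af13_lc.G.E2

open Pool.Agent.Work.PolyTime

theorem exists_shift (n : ℕ) (y : ℕ → ℝ) (θ : ℝ) (hθ : 0 ≤ θ) (h : θ * (n + 1) ≤ 1) :
    ∃ φ : ℝ, ∀ u < n, ⌊y u + φ + θ⌋ = ⌊y u + φ⌋ := by
  by_contra hcon
  push Not at hcon
  have h1 : ∀ j : Fin (n + 1), ∃ u : Fin n,
      ⌊y u + (j : ℕ) / ((n : ℝ) + 1)⌋ < ⌊y u + (j : ℕ) / ((n : ℝ) + 1) + θ⌋ := by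
    intro j
    obtain ⟨u, hu, hne⟩ := hcon ((j : ℕ) / ((n : ℝ) + 1))
    refine ⟨⟨u, hu⟩, lt_of_le_of_ne (Int.floor_mono (by linarith)) (fun h => hne h.symm)⟩
  choose f hf using h1
  obtain ⟨i, j, hij, hfe⟩ := Fintype.exists_ne_map_eq_of_card_lt f (by simp)
  have hn : (0 : ℝ) < n + 1 := by positivity
  have hθ' : θ ≤ 1 / (n + 1) := by rw [le_div_iff₀ hn]; exact h
  have key : ∀ i j : Fin (n + 1), f i = f j → (i : ℕ) < j → False := by
    intro i j he hlt
    have h2 := hf i
    have h3 := hf j
    rw [← he] at h3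
    have h4 : ⌊y (f i) + (i : ℕ) / ((n : ℝ) + 1) + θ⌋ ≤ ⌊y (f i) + (j : ℕ) / ((n : ℝ) + 1)⌋ := by
      apply Int.floor_mono
      have h5 : (i : ℕ) / ((n : ℝ) + 1) + 1 / (n + 1) ≤ (j : ℕ) / ((n : ℝ) + 1) := by
        rw [← add_div]
        apply div_le_div_of_nonneg_right _ hn.le
        exact_mod_cast hlt
      linarith
    have h6 : ⌊y (f i) + (j : ℕ) / ((n : ℝ) + 1) + θ⌋ ≤
        ⌊y (f i) + (i : ℕ) / ((n : ℝ) + 1)⌋ + 1 := by
      rw [← Int.floor_add_one]
      apply Int.floor_mono
      have h7 : (j : ℕ) / ((n : ℝ) + 1) + 1 / (n + 1) ≤ 1 := by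
        rw [← add_div, div_le_one hn]
        have : (j : ℕ) ≤ n := by omega
        have h8 : ((j : ℕ) : ℝ) ≤ n := by exact_mod_cast this
        linarith
      have h8 : 0 ≤ (i : ℕ) / ((n : ℝ) + 1) := by positivity
      linarith
    omega
  rcases lt_or_gt_of_ne (fun h => hij (Fin.ext h) : (i : ℕ) ≠ j) with h2 | h2
  · exact key i j hfe h2
  · exact key j i hfe.symm h2

section

variable {A : Arena} {z : ℕ → ℝ} (hz : ESol A z)

include hz

theorem dn_node {v i c : ℕ} (hv : v < A.length) (hi : i < eL A) (hc : c < eB A) :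
    NOK z (z (ix A v i c)) (eBlock A v i c) := by
  have h1 := (ix_lt A hv hi hc).trans (eT_lt_eP A)
  have h2 := hz.1 _ h1
  rwa [eNode_ix A hv hi hc] at h2

theorem dn_rw {v i : ℕ} (hv : v < A.length) (hi : i < eL A) : ∀ (k c : ℕ), eK A < c → c < eB A →
    eB A ≤ c + k → z (ix A v i c) ≤ rv A v i c := by
  intro k
  induction k with
  | zero => intro c h1 h2 h3; omega
  | succ k ih =>
    intro c h1 h2 h3
    have h4 := dn_node hz hv hi h2
    have h0 : c ≠ 0 := by omega
    have h5 : ¬ c ≤ eK A := by omega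
    have h6 := rv_step A v i c h1 h2
    by_cases h7 : c + 1 = eB A
    · simp only [NOK, eBlock, h0, h5, h7, decide_true, decide_false, cond_true, cond_false, kindOf,
        zv] at h4
      rw [if_pos h7] at h6
      unfold b01 at h6
      linarith
    · simp only [NOK, eBlock, h0, h5, h7, decide_true, decide_false, cond_true, cond_false, kindOf,
        zv] at h4
      rw [if_neg h7] at h6
      unfold b01 at h6
      have h8 := ih (c + 1) (by omega) (by omega) (by omega)
      linarith

theorem dn_ch {v i : ℕ} (hv : v < A.length) (hi : i < eL A) : ∀ (k : ℕ), k < eK A →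
    z (ix A v i (eK A - k)) ≤ zv z (ePos A (eE A v i).1) +
      (rw1 (eE A v i) (eL A) - zv z (ePos A (eE A v i).1)) / 2 ^ (k + 1) := by
  intro k
  induction k with
  | zero =>
    intro hk
    have hB : eK A < eB A := by unfold eB; omega
    have h4 := dn_node hz hv hi (c := eK A) hB
    have h0 : eK A ≠ 0 := by omega
    have h8 := dn_rw hz hv hi (eB A) (eK A + 1) (by omega) (by unfold eB; omega) (by omega)
    simp only [NOK, eBlock, h0, le_refl, decide_true, decide_false, cond_true, cond_false, kindOf]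
      at h4
    have h9 : rv A v i (eK A + 1) = rw1 (eE A v i) (eL A) := by simp [rv]
    rw [h9] at h8
    simp only [zv] at h4 ⊢
    rw [Nat.sub_zero, zero_add, pow_one]
    linarith
  | succ k ih =>
    intro hk
    have h1 := ih (by omega)
    have hB : eK A - (k + 1) < eB A := by unfold eB; omega
    have h4 := dn_node hz hv hi (c := eK A - (k + 1)) hB
    have h0 : eK A - (k + 1) ≠ 0 := by omega
    have h5 : eK A - (k + 1) ≤ eK A := by omega
    have h6 : eK A - (k + 1) + 1 = eK A - k := by omega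
    simp only [NOK, eBlock, h0, h5, h6, decide_true, decide_false, cond_true, cond_false, kindOf]
      at h4
    set a := zv z (ePos A (eE A v i).1) with ha
    have h7 : zv z (Sum.inl (ix A v i (eK A - k))) = z (ix A v i (eK A - k)) := rfl
    rw [h7] at h4
    have h8 : (rw1 (eE A v i) (eL A) - a) / 2 ^ (k + 1 + 1) =
        (rw1 (eE A v i) (eL A) - a) / 2 ^ (k + 1) / 2 := by
      rw [pow_succ, div_div]
    rw [h8]
    linarith

theorem dn_one {v i : ℕ} (hv : v < A.length) (hi : i < eL A) :
    z (ix A v i 1) ≤ zv z (ePos A (eE A v i).1) +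
      (rw1 (eE A v i) (eL A) - zv z (ePos A (eE A v i).1)) / 2 ^ eK A := by
  have hK : 2 ≤ eK A := by unfold eK; omega
  have h := dn_ch hz hv hi (eK A - 1) (by omega)
  rwa [show eK A - (eK A - 1) = 1 by omega, show eK A - 1 + 1 = eK A by omega] at h

theorem dn_max {v : ℕ} (hv : v < A.length) (ho : owner A v = true) : ∀ (k i : ℕ),
    i < (edges A v).length → (edges A v).length ≤ i + k →
    ∃ j < (edges A v).length, z (ix A v i 0) ≤ z (ix A v j 1) := by
  intro k
  induction k with
  | zero => intro i h1 h2; omega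
  | succ k ih =>
    intro i h1 h2
    have hd := deg_le A v
    have h4 := dn_node hz hv (i := i) (c := 0) (by omega) (by have := eB_pos A; omega)
    by_cases h3 : i + 2 ≤ (edges A v).length
    · simp only [NOK, eBlock, h3, decide_true, cond_true, kindOf, ho, zv] at h4
      rcases h4 with h4 | h4
      · exact ⟨i, h1, h4⟩
      · obtain ⟨j, hj, h5⟩ := ih (i + 1) (by omega) (by omega)
        exact ⟨j, hj, h4.trans h5⟩
    · simp only [NOK, eBlock, h3, decide_true, decide_false, cond_true, cond_false, kindOf, ho, zv,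
        or_self] at h4
      exact ⟨i, h1, h4⟩

theorem dn_min {v : ℕ} (hv : v < A.length) (ho : owner A v = false) : ∀ (k i : ℕ),
    i < (edges A v).length → (edges A v).length ≤ i + k →
    ∀ j, i ≤ j → j < (edges A v).length → z (ix A v i 0) ≤ z (ix A v j 1) := by
  intro k
  induction k with
  | zero => intro i h1 h2; omega
  | succ k ih =>
    intro i h1 h2 j hij hj
    have hd := deg_le A v
    have h4 := dn_node hz hv (i := i) (c := 0) (by omega) (by have := eB_pos A; omega)
    by_cases h3 : i + 2 ≤ (edges A v).length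
    · simp only [NOK, eBlock, h3, decide_true, cond_true, kindOf, ho, zv] at h4
      rcases Nat.eq_or_lt_of_le hij with h5 | h5
      · rw [← h5]; exact h4.1
      · exact h4.2.trans (ih (i + 1) (by omega) (by omega) j h5 hj)
    · simp only [NOK, eBlock, h3, decide_true, decide_false, cond_true, cond_false, kindOf, ho, zv,
        and_self] at h4
      have : j = i := by omega
      rw [this]
      exact h4

theorem dn_tnode {r : ℕ} (hr : r < A.length + 2 + eJ A) :
    NOK z (z (eT A + r)) (eTail A r) := by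
  have h2 := hz.1 (eT A + r) (by unfold eP; omega)
  rwa [eNode_tail A r] at h2

theorem dn_root : ∀ (k : ℕ), k ≤ A.length → z (eT A) ≤ z (eT A + k) := by
  intro k
  induction k with
  | zero => intro _; rw [add_zero]
  | succ k ih =>
    intro hk
    have h1 := dn_tnode hz (r := k) (by omega)
    have h2 : k + 1 ≤ A.length := hk
    simp only [NOK, eTail, h2, decide_true, cond_true, kindOf, zv] at h1
    exact (ih (by omega)).trans h1.2

theorem dn_pos {r : ℕ} (hr : r < A.length) : z (eT A) ≤ zv z (ePos A r) := by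
  have h1 := dn_tnode hz (r := r) (by omega)
  have h2 : r + 1 ≤ A.length := hr
  simp only [NOK, eTail, h2, decide_true, cond_true, kindOf] at h1
  exact (dn_root hz r hr.le).trans h1.1

theorem dn_tv : ∀ (k r : ℕ), A.length + 2 ≤ r → r < A.length + 2 + eJ A →
    A.length + 2 + eJ A ≤ r + k → z (eT A + r) ≤ tv A r := by
  intro k
  induction k with
  | zero => intro r h1 h2 h3; omega
  | succ k ih =>
    intro r h1 h2 h3
    have h4 := dn_tnode hz h2
    have h5 := tv_step A r h1 h2
    have h6 : ¬ r + 1 ≤ A.length := by omega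
    have h7 : ¬ r = A.length := by omega
    have h8 : ¬ r = A.length + 1 := by omega
    by_cases h9 : r + 1 = A.length + 2 + eJ A
    · have h10 : ¬ (A.length + 2 + eJ A ≤ A.length) := by omega
      simp only [NOK, eTail, h6, h7, h8, h9, h10, decide_true, decide_false, cond_true, cond_false,
        kindOf, zv, if_true] at h4
      rw [if_pos h9] at h5
      unfold b01 at h5
      linarith
    · simp only [NOK, eTail, h6, h7, h8, h9, decide_true, decide_false, cond_true, cond_false,
        kindOf, zv, if_true] at h4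
      rw [if_neg h9] at h5
      unfold b01 at h5
      have h11 := ih (r + 1) (by omega) (by omega) (by omega)
      rw [← add_assoc] at h11
      linarith

theorem dn_start : 1 / 2 - 1 / 2 ^ eJ A ≤ z (eT A) := by
  have hJ : 3 ≤ eJ A := by unfold eJ; omega
  have h1 := dn_tnode hz (r := A.length + 1) (by omega)
  have h6 : ¬ A.length + 1 + 1 ≤ A.length := by omega
  have h7 : ¬ A.length + 1 = A.length := by omega
  simp only [NOK, eTail, h6, h7, decide_true, decide_false, cond_true, cond_false,
    kindOf, zv] at h1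
  have h2 := dn_tv hz (eJ A) (A.length + 2) le_rfl (by omega) (by omega)
  have h3 : tv A (A.length + 2) = 1 / 2 + 1 / 2 ^ eJ A := by simp [tv]
  rw [h3] at h2
  have h4 := hz.2
  have h5 : eT A + (A.length + 1) + 1 = eT A + (A.length + 2) := by ring
  have h8 : eT A + A.length + 1 = eT A + (A.length + 1) := by ring
  rw [h8] at h4
  rw [h5] at h1
  linarith

theorem feasible_of_eSol (hc : Closed A) : Feasible A := by
  classical
  set a : ℕ → ℝ := fun u => zv z (ePos A u) with ha
  set y : ℕ → ℝ := fun u => (a u - 1 / 2) * 2 ^ (eL A + 1) * 2 ^ eK A with hy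
  set θ : ℝ := 1 / 2 ^ (A.length + 2) with hθ
  have hpL : (0 : ℝ) < 2 ^ (eL A + 1) := by positivity
  have hpK : (0 : ℝ) < 2 ^ eK A := by positivity
  have hlow : ∀ u < A.length, 1 / 2 - 1 / 2 ^ eJ A ≤ a u := fun u hu =>
    (dn_start hz).trans (dn_pos hz hu)
  have hD : ∀ u < A.length, -θ ≤ (a u - 1 / 2) * 2 ^ (eL A + 1) := by
    intro u hu
    have h1 := hlow u hu
    have h2 : (1 : ℝ) / 2 ^ eJ A * 2 ^ (eL A + 1) = θ := by
      rw [hθ, eJ, show eL A + A.length + 3 = (A.length + 2) + (eL A + 1) by ring, pow_add]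
      field_simp
    nlinarith
  have hedge : ∀ v < A.length, ∀ i < (edges A v).length,
      z (ix A v 0 0) ≤ z (ix A v i 1) → y v ≤ y (eE A v i).1 + wgt (eE A v i) + θ := by
    intro v hv i hi hle
    have hd := deg_le A v
    have hne : edges A v ≠ [] := by intro h; rw [h] at hi; simp at hi
    have h1 := dn_one hz hv (i := i) (by omega)
    have h2 : a v = z (ix A v 0 0) := by
      simp only [ha, ePos, hne, decide_false, cond_false, zv]
    have hin : eE A v i ∈ edges A v := by
      unfold eE
      rw [List.getD_eq_getElem _ _ hi]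
      exact List.getElem_mem hi
    have hu : (eE A v i).1 < A.length := hc v hv _ hin
    have h3 := hD _ hu
    set u := (eE A v i).1 with hu'
    have h4 : a v - 1 / 2 ≤ (a u - 1 / 2) +
        ((wgt (eE A v i) : ℝ) / 2 ^ (eL A + 1) - (a u - 1 / 2)) / 2 ^ eK A := by
      have h5 : rw1 (eE A v i) (eL A) - a u =
          (wgt (eE A v i) : ℝ) / 2 ^ (eL A + 1) - (a u - 1 / 2) := by
        unfold rw1; ring
      rw [← h5]
      have : a v ≤ a u + (rw1 (eE A v i) (eL A) - a u) / 2 ^ eK A := by
        rw [h2]; exact hle.trans h1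
      linarith
    have h6 : (a v - 1 / 2) * (2 ^ (eL A + 1) * 2 ^ eK A) ≤ ((a u - 1 / 2) +
        ((wgt (eE A v i) : ℝ) / 2 ^ (eL A + 1) - (a u - 1 / 2)) / 2 ^ eK A) *
          (2 ^ (eL A + 1) * 2 ^ eK A) :=
      mul_le_mul_of_nonneg_right h4 (by positivity)
    have h7 : ((a u - 1 / 2) +
        ((wgt (eE A v i) : ℝ) / 2 ^ (eL A + 1) - (a u - 1 / 2)) / 2 ^ eK A) *
          (2 ^ (eL A + 1) * 2 ^ eK A) = y u + wgt (eE A v i) -
          (a u - 1 / 2) * 2 ^ (eL A + 1) := by
      simp only [hy]
      field_simp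
      ring
    rw [h7] at h6
    have h8 : y v = (a v - 1 / 2) * (2 ^ (eL A + 1) * 2 ^ eK A) := by
      simp only [hy]; ring
    rw [h8]
    linarith
  obtain ⟨φ, hφ⟩ := exists_shift A.length y θ (by positivity) (by
    rw [hθ, one_div, inv_mul_le_iff₀ (by positivity), mul_one]
    have : A.length + 1 ≤ 2 ^ (A.length + 2) := by
      have h1 : A.length + 2 < 2 ^ (A.length + 2) := Nat.lt_two_pow_self
      omega
    exact_mod_cast this)
  have hround : ∀ v < A.length, ∀ e : WEdge, e.1 < A.length → y v ≤ y e.1 + wgt e + θ →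
      ⌊y v + φ⌋ ≤ ⌊y e.1 + φ⌋ + wgt e := by
    intro v hv e hu h
    rw [← hφ e.1 hu, ← Int.floor_add_intCast]
    apply Int.floor_mono
    linarith
  refine ⟨fun v => ⌊y v + φ⌋, fun v hv => ⟨fun ho => ?_, fun ho e he => ?_⟩⟩
  · by_cases hne : edges A v = []
    · exfalso
      have h1 := hlow v hv
      have h2 : a v = 0 := by
        simp [ha, ePos, hne, ho, zv]
      rw [h2] at h1
      have hJ : 3 ≤ eJ A := by unfold eJ; omega
      have h3 : (2 : ℝ) ^ 3 ≤ 2 ^ eJ A := pow_le_pow_right₀ (by norm_num) hJ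
      have h4 : (1 : ℝ) / 2 ^ eJ A ≤ 1 / 2 ^ 3 := one_div_le_one_div_of_le (by norm_num) h3
      norm_num at h4
      norm_num at h1
      linarith
    · obtain ⟨j, hj, h1⟩ := dn_max hz hv ho (edges A v).length 0 (List.length_pos_of_ne_nil hne)
        (by omega)
      have hin : eE A v j ∈ edges A v := by
        unfold eE
        rw [List.getD_eq_getElem _ _ hj]
        exact List.getElem_mem hj
      exact ⟨eE A v j, hin, hround v hv _ (hc v hv _ hin) (hedge v hv j hj h1)⟩
  · obtain ⟨j, hj, rfl⟩ := List.getElem_of_mem he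
    have h1 := dn_min hz hv ho (edges A v).length 0 (by omega) (by omega) j (by omega) hj
    have h2 := hedge v hv j hj h1
    have h3 : eE A v j = (edges A v)[j] := by
      unfold eE
      rw [List.getD_eq_getElem _ _ hj]
    rw [h3] at h2
    exact hround v hv _ (hc v hv _ he) h2

end

end Pool.Agent.Work.MP_85af13_lc.G.E2
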