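import Pool.Agent.Work.MP_85af13_lc.SSG

/-!
Stopping simple stochastic games and real solutions of the system of inequalities.
-/

set_option autoImplicit false
set_option linter.unusedSectionVars false
set_option linter.unusedSimpArgs false

namespace Pool.Agent.Work.MP_85af13_lc.G.E2

open Pool.Agent.Work.MP_85af13_lc

variable {n : ℕ} (G : SSG n)

/-- A real labelling of the vertices which nowhere exceeds the maximum, minimum or average of its
values at the successors (`1` and `0` at the sinks). -/
def RSub (z : Fin n → ℝ) : Prop := ∀ v, match G.kind v with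
    | Kind.max => z v ≤ ext z sinkVal (G.succ v false) ∨ z v ≤ ext z sinkVal (G.succ v true)
    | Kind.min => z v ≤ ext z sinkVal (G.succ v false) ∧ z v ≤ ext z sinkVal (G.succ v true)
    | Kind.avg => 2 * z v ≤ ext z sinkVal (G.succ v false) + ext z sinkVal (G.succ v true)

theorem value_of_rsub (hG : G.Stopping) (v0 : Fin n) (z : Fin n → ℝ) (hz : RSub G z)
    (h0 : 1 / 2 ≤ z v0) : G.ValueAtLeastHalf v0 := by
  classical
  refine ⟨fun v => decide (z v ≤ ext z sinkVal (G.succ v true)), fun τ => ?_⟩
  set σ : Fin n → Bool := fun v => decide (z v ≤ ext z sinkVal (G.succ v true)) with hσ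
  have hstep : ∀ v, z v ≤ (ext z sinkVal (G.next σ τ v false) +
      ext z sinkVal (G.next σ τ v true)) / 2 := by
    intro v
    have hv := hz v
    simp only [SSG.next]
    cases hk : G.kind v with
    | max =>
      simp only [hk] at hv ⊢
      by_cases h : z v ≤ ext z sinkVal (G.succ v true)
      · have : σ v = true := by simp [hσ, h]
        rw [this]; linarith
      · have : σ v = false := by simp [hσ, h]
        rw [this]
        rcases hv with h' | h'
        · linarith
        · exact absurd h' h
    | min =>
      simp only [hk] at hv ⊢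
      cases τ v
      · linarith [hv.1]
      · linarith [hv.2]
    | avg =>
      simp only [hk] at hv ⊢
      linarith
  have hsub : ∀ p, ext (fun v => z v - G.winProb σ τ v) (fun _ => 0) p =
      ext z sinkVal p - ext (G.winProb σ τ) sinkVal p := by
    intro p; rcases p with w | b <;> simp [ext]
  have h1 := max_principle (G.chainStopping hG σ τ) (fun v => z v - G.winProb σ τ v)
    (fun _ => 0) 0 le_rfl (fun _ => le_rfl) (fun v => by
      rw [hsub, hsub, add_zero, G.winProb_eq σ τ v]
      linarith [hstep v]) v0
  simp only [mul_zero, zero_mul] at h1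
  linarith

theorem rsub_of_value (hG : G.Stopping) (v0 : Fin n) (h : G.ValueAtLeastHalf v0) :
    ∃ z : Fin n → ℝ, RSub G z ∧ 1 / 2 ≤ z v0 := by
  obtain ⟨σ, hσ⟩ := h
  refine ⟨G.lim σ, fun v => ?_, G.half_le_lim hG σ v0 hσ⟩
  cases hk : G.kind v with
  | max =>
    simp only
    have := G.lim_max σ v hk
    cases hs : σ v
    · left; rw [hs] at this; exact this.le
    · right; rw [hs] at this; exact this.le
  | min =>
    simp only
    have := G.lim_min σ v hk
    exact ⟨this.le.trans (min_le_left _ _), this.le.trans (min_le_right _ _)⟩
  | avg =>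
    simp only
    have := G.lim_avg σ v hk
    linarith

end Pool.Agent.Work.MP_85af13_lc.G.E2
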