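import Pool.Agent.Work.MP_85af13_lc.G.E2.Idx
import Pool.Agent.Work.MP_85af13_lc.G.E2.Real

/-!
The game of a min-max system is stopping; its value and real labellings of the numbered nodes.
-/

set_option autoImplicit false
set_option linter.unusedSimpArgs false

namespace Pool.Agent.Work.MP_85af13_lc.G.E2

open Pool.Agent.Work.PolyTime
open Pool.Agent.Work.MP_62a643_lc (dv)

/-- Value of a target. -/
def zv (z : ℕ → ℝ) : ℕ ⊕ Bool → ℝ
  | Sum.inl u => z u
  | Sum.inr b => if b then 1 else 0

/-- The inequality at a node. -/
def NOK (z : ℕ → ℝ) (x : ℝ) (g : GNode) : Prop := match kindOf g.1 with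
  | Kind.max => x ≤ zv z g.2.1 ∨ x ≤ zv z g.2.2
  | Kind.min => x ≤ zv z g.2.1 ∧ x ≤ zv z g.2.2
  | Kind.avg => 2 * x ≤ zv z g.2.1 + zv z g.2.2

/-- Labellings of the nodes of the game of `A`. -/
def ESol (A : Arena) (z : ℕ → ℝ) : Prop :=
  (∀ p < eP A, NOK z (z p) (eNode A p)) ∧ 1 / 2 ≤ z (eT A + A.length + 1)

variable (A : Arena)

theorem eGame_length : (eGame A).1.length = eP A := by simp [eGame]

theorem eStart_lt : (eGame A).2 < (eGame A).1.length := by
  rw [eGame_length]
  simp only [eGame, eP, eJ]
  omega

/-- All targets are nodes. -/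
def InR (q : ℕ ⊕ Bool) : Prop := match q with
  | Sum.inl u => u < eP A
  | Sum.inr _ => True

theorem eT_lt_eP : eT A < eP A := by unfold eP eJ; omega

theorem inR_ePos (v : ℕ) : InR A (ePos A v) := by
  by_cases h : edges A v = []
  · simp [ePos, h, InR]
  · simp only [ePos, h, decide_false, cond_false, InR]
    exact (ix_lt A (lt_of_edges A h) (eL_pos_of_edges A h) (by have := eB_pos A; omega)).trans
      (eT_lt_eP A)

theorem inR_eBlock {v i c : ℕ} (hv : v < A.length) (hi : i < eL A) (hc : c < eB A) :
    InR A (eBlock A v i c).2.1 ∧ InR A (eBlock A v i c).2.2 := by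
  have hT := eT_lt_eP A
  have hB := eB_pos A
  have h1 : ix A v i 1 < eP A := (ix_lt A hv hi (by omega)).trans hT
  unfold eBlock
  by_cases h0 : c = 0
  · simp only [h0, decide_true, cond_true]
    refine ⟨h1, ?_⟩
    by_cases h2 : i + 2 ≤ (edges A v).length
    · simp only [h2, decide_true, cond_true]
      exact (ix_lt A hv (by have := deg_le A v; omega) (by omega)).trans hT
    · simp only [h2, decide_false, cond_false]
      exact h1
  · simp only [h0, decide_false, cond_false]
    by_cases h2 : c ≤ eK A
    · simp only [h2, decide_true, cond_true]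
      exact ⟨inR_ePos A _, (ix_lt A hv hi (by unfold eB; omega)).trans hT⟩
    · simp only [h2, decide_false, cond_false]
      refine ⟨trivial, ?_⟩
      by_cases h3 : c + 1 = eB A
      · simp only [h3, decide_true, cond_true]; trivial
      · simp only [h3, decide_false, cond_false]
        exact (ix_lt A hv hi (by omega)).trans hT

theorem inR_eTail {r : ℕ} (hr : r < A.length + 2 + eJ A) :
    InR A (eTail A r).2.1 ∧ InR A (eTail A r).2.2 := by
  have hT := eT_lt_eP A
  have hn : ∀ s, s < A.length + 2 + eJ A → eT A + s < eP A := by intro s hs; unfold eP; omega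
  unfold eTail
  by_cases h1 : r + 1 ≤ A.length
  · simp only [h1, decide_true, cond_true]
    exact ⟨inR_ePos A r, hn (r + 1) (by omega)⟩
  · simp only [h1, decide_false, cond_false]
    by_cases h2 : r = A.length
    · simp only [h2, decide_true, cond_true]; exact ⟨trivial, trivial⟩
    · simp only [h2, decide_false, cond_false]
      by_cases h3 : r = A.length + 1
      · simp only [h3, decide_true, cond_true]
        exact ⟨hT, hn (A.length + 1 + 1) (by unfold eJ; omega)⟩
      · simp only [h3, decide_false, cond_false]
        refine ⟨trivial, ?_⟩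
        by_cases h4 : r + 1 = A.length + 2 + eJ A
        · simp only [h4, decide_true, cond_true]; trivial
        · simp only [h4, decide_false, cond_false]
          exact hn (r + 1) (by omega)

theorem inR_eNode {p : ℕ} (hp : p < eP A) : InR A (eNode A p).2.1 ∧ InR A (eNode A p).2.2 := by
  by_cases h : p < eT A
  · obtain ⟨v, i, c, hv, hi, hc, rfl⟩ := exists_coords A h
    rw [eNode_ix A hv hi hc]
    exact inR_eBlock A hv hi hc
  · obtain ⟨r, rfl⟩ : ∃ r, p = eT A + r := ⟨p - eT A, by omega⟩
    rw [eNode_tail]
    exact inR_eTail A (by unfold eP at hp; omega)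

/-! ### The game -/

theorem eGame_getD (v : Fin (eGame A).1.length) :
    (eGame A).1.getD v (none, Sum.inr false, Sum.inr false) = eNode A v := by
  have hv : (v : ℕ) < eP A := v.2.trans_eq (eGame_length A)
  simp only [eGame]
  rw [List.getD_eq_getElem _ _ (by simpa using hv)]
  simp

theorem eGame_kind (v : Fin (eGame A).1.length) :
    (gameOf (eGame A)).kind v = kindOf (eNode A v).1 := by
  simp only [gameOf, eGame_getD]

theorem eGame_succ (v : Fin (eGame A).1.length) (i : Bool) :
    (gameOf (eGame A)).succ v i =
      toPos (eGame A).1.length (bif i then (eNode A v).2.2 else (eNode A v).2.1) := by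
  simp only [gameOf, eGame_getD]

section stop

variable {A}
variable (σ τ : Fin (eGame A).1.length → Bool)

/-- A sink can be reached from a target. -/
def Gd (q : ℕ ⊕ Bool) : Prop := ∃ b : Bool, Relation.ReflTransGen
  (SSG.Move ((gameOf (eGame A)).next σ τ)) (toPos (eGame A).1.length q) (Sum.inr b)

theorem gd_inr (b : Bool) : Gd σ τ (Sum.inr b) := ⟨b, Relation.ReflTransGen.refl⟩

theorem gd_step (v : Fin (eGame A).1.length)
    (h : ∃ i, (∃ b : Bool, Relation.ReflTransGen (SSG.Move ((gameOf (eGame A)).next σ τ))
      ((gameOf (eGame A)).next σ τ v i) (Sum.inr b))) : Gd σ τ (Sum.inl (v : ℕ)) := by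
  obtain ⟨i, b, hb⟩ := h
  refine ⟨b, ?_⟩
  have h1 : toPos (eGame A).1.length (Sum.inl (v : ℕ)) = Sum.inl v := by
    simp [toPos]
  rw [h1]
  exact Relation.ReflTransGen.head ⟨i, rfl⟩ hb

/-- At average nodes one good successor suffices. -/
theorem gd_avg {p : ℕ} (hp : p < eP A) (hk : (eNode A p).1 = none)
    (h : Gd σ τ (eNode A p).2.2) : Gd σ τ (Sum.inl p) := by
  have hp' : p < (eGame A).1.length := by rw [eGame_length]; exact hp
  refine gd_step σ τ ⟨p, hp'⟩ ⟨true, ?_⟩
  have h1 : (gameOf (eGame A)).next σ τ ⟨p, hp'⟩ true =
      toPos (eGame A).1.length (eNode A p).2.2 := by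
    simp only [SSG.next, eGame_kind, hk, kindOf, eGame_succ, cond_true]
  rw [h1]
  exact h

theorem gd_both {p : ℕ} (hp : p < eP A) (h1 : Gd σ τ (eNode A p).2.1)
    (h2 : Gd σ τ (eNode A p).2.2) : Gd σ τ (Sum.inl p) := by
  have hp' : p < (eGame A).1.length := by rw [eGame_length]; exact hp
  refine gd_step σ τ ⟨p, hp'⟩ ⟨true, ?_⟩
  have h3 : ∀ j : Bool, ∃ b : Bool, Relation.ReflTransGen
      (SSG.Move ((gameOf (eGame A)).next σ τ)) ((gameOf (eGame A)).succ ⟨p, hp'⟩ j)
      (Sum.inr b) := by
    intro j
    rw [eGame_succ]
    cases j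
    · exact h1
    · exact h2
  simp only [SSG.next]
  cases (gameOf (eGame A)).kind ⟨p, hp'⟩
  · exact h3 _
  · exact h3 _
  · exact h3 _

theorem gd_block : ∀ (k p : ℕ), p < eT A → eT A ≤ p + k → Gd σ τ (Sum.inl p) := by
  intro k
  induction k with
  | zero => intro p h1 h2; omega
  | succ k ih =>
    intro p hp hk
    have hpP : p < eP A := hp.trans (eT_lt_eP A)
    obtain ⟨v, i, c, hv, hi, hc, rfl⟩ := exists_coords A hp
    have hn := eNode_ix A hv hi hc
    have hB := eB_pos A
    have hnext : ∀ c', c < c' → c' < eB A → Gd σ τ (Sum.inl (ix A v i c')) := by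
      intro c' h1 h2
      exact ih _ (ix_lt A hv hi h2) (by unfold ix at hk ⊢; omega)
    by_cases h0 : c = 0
    · subst h0
      refine gd_both σ τ hpP ?_ ?_
      · rw [hn]
        simp only [eBlock, decide_true, cond_true]
        exact hnext 1 (by omega) (by omega)
      · rw [hn]
        simp only [eBlock, decide_true, cond_true]
        by_cases h2 : i + 2 ≤ (edges A v).length
        · simp only [h2, decide_true, cond_true]
          refine ih _ (ix_lt A hv (by have := deg_le A v; omega) (by omega)) ?_
          unfold ix at hk ⊢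
          have : (i + 1) * eB A = i * eB A + eB A := by ring
          omega
        · simp only [h2, decide_false, cond_false]
          exact hnext 1 (by omega) (by omega)
    · refine gd_avg σ τ hpP ?_ ?_
      · rw [hn]
        by_cases h2 : c ≤ eK A <;> simp [eBlock, h0, h2]
      · rw [hn]
        by_cases h2 : c ≤ eK A
        · simp only [eBlock, h0, h2, decide_true, decide_false, cond_true, cond_false]
          exact hnext (c + 1) (by omega) (by unfold eB; omega)
        · by_cases h3 : c + 1 = eB A
          · simp only [eBlock, h0, h2, h3, decide_true, decide_false, cond_true, cond_false]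
            exact gd_inr σ τ _
          · simp only [eBlock, h0, h2, h3, decide_true, decide_false, cond_true, cond_false]
            exact hnext (c + 1) (by omega) (by omega)

theorem gd_ePos (v : ℕ) : Gd σ τ (ePos A v) := by
  by_cases h : edges A v = []
  · simp only [ePos, h, decide_true, cond_true]; exact gd_inr σ τ _
  · simp only [ePos, h, decide_false, cond_false]
    exact gd_block σ τ (eT A) _ (ix_lt A (lt_of_edges A h) (eL_pos_of_edges A h)
      (by have := eB_pos A; omega)) (by omega)

theorem gd_tail : ∀ (k r : ℕ), r < A.length + 2 + eJ A → A.length + 2 + eJ A ≤ r + k →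
    Gd σ τ (Sum.inl (eT A + r)) := by
  intro k
  induction k with
  | zero => intro p h1 h2; omega
  | succ k ih =>
    intro r hr hk
    have hpP : eT A + r < eP A := by unfold eP; omega
    have hn := eNode_tail A r
    have hnext : r + 1 < A.length + 2 + eJ A → Gd σ τ (Sum.inl (eT A + r + 1)) := by
      intro h
      exact ih (r + 1) h (by omega)
    by_cases h1 : r + 1 ≤ A.length
    · refine gd_both σ τ hpP ?_ ?_
      · rw [hn]
        simp only [eTail, h1, decide_true, cond_true]
        exact gd_ePos σ τ r
      · rw [hn]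
        simp only [eTail, h1, decide_true, cond_true]
        exact hnext (by omega)
    · by_cases h2 : r = A.length
      · refine gd_both σ τ hpP ?_ ?_
        · rw [hn]
          simp only [eTail, h1, h2, decide_true, decide_false, cond_true, cond_false]
          simp only [show ¬ (A.length + 1 ≤ A.length) by omega, decide_false, cond_false]
          exact gd_inr σ τ _
        · rw [hn]
          simp only [eTail, h1, h2, decide_true, decide_false, cond_true, cond_false]
          simp only [show ¬ (A.length + 1 ≤ A.length) by omega, decide_false, cond_false]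
          exact gd_inr σ τ _
      · refine gd_avg σ τ hpP ?_ ?_
        · rw [hn]
          by_cases h3 : r = A.length + 1
          · simp [eTail, h1, h2, h3]
          · simp [eTail, h1, h2, h3]
        · rw [hn]
          by_cases h3 : r = A.length + 1
          · have h4 := hnext (by unfold eJ; omega)
            subst h3
            simp only [eTail, h1, h2, decide_true, decide_false, cond_true, cond_false]
            exact h4
          · by_cases h5 : r + 1 = A.length + 2 + eJ A
            · simp only [eTail, h1, h2, h3, h5, decide_true, decide_false, cond_true, cond_false]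
              simp only [← h5, h1, decide_false, cond_false]
              exact gd_inr σ τ _
            · simp only [eTail, h1, h2, h3, h5, decide_true, decide_false, cond_true, cond_false]
              exact hnext (by omega)

end stop

theorem eGame_stopping : (gameOf (eGame A)).Stopping := by
  intro σ τ v
  have hv : (v : ℕ) < eP A := v.2.trans_eq (eGame_length A)
  have key : Gd σ τ (Sum.inl (v : ℕ)) := by
    by_cases h : (v : ℕ) < eT A
    · exact gd_block σ τ (eT A) _ h (by omega)
    · obtain ⟨r, hr⟩ : ∃ r, (v : ℕ) = eT A + r := ⟨v - eT A, by omega⟩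
      rw [hr]
      exact gd_tail σ τ (A.length + 2 + eJ A) r (by unfold eP at hv; omega) (by omega)
  obtain ⟨b, hb⟩ := key
  have h1 : toPos (eGame A).1.length (Sum.inl (v : ℕ)) = Sum.inl v := by
    simp [toPos]
  rw [h1] at hb
  exact ⟨b, hb⟩

theorem zv_eq (z : ℕ → ℝ) (q : ℕ ⊕ Bool) (hq : InR A q) :
    ext (fun v : Fin (eGame A).1.length => z v) sinkVal (toPos (eGame A).1.length q) = zv z q := by
  rcases q with u | b
  · have hu : u < (eGame A).1.length := by rw [eGame_length]; exact hq
    simp [toPos, hu, ext, zv]
  · cases b <;> simp [toPos, ext, zv, sinkVal]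

theorem rsub_iff (z : ℕ → ℝ) : RSub (gameOf (eGame A)) (fun v => z v) ↔
    ∀ p < eP A, NOK z (z p) (eNode A p) := by
  have key : ∀ v : Fin (eGame A).1.length, ((match (gameOf (eGame A)).kind v with
    | Kind.max => z v ≤ ext (fun v : Fin (eGame A).1.length => z v) sinkVal
        ((gameOf (eGame A)).succ v false) ∨
        z v ≤ ext (fun v : Fin (eGame A).1.length => z v) sinkVal ((gameOf (eGame A)).succ v true)
    | Kind.min => z v ≤ ext (fun v : Fin (eGame A).1.length => z v) sinkVal
        ((gameOf (eGame A)).succ v false) ∧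
        z v ≤ ext (fun v : Fin (eGame A).1.length => z v) sinkVal ((gameOf (eGame A)).succ v true)
    | Kind.avg => 2 * z v ≤ ext (fun v : Fin (eGame A).1.length => z v) sinkVal
        ((gameOf (eGame A)).succ v false) +
        ext (fun v : Fin (eGame A).1.length => z v) sinkVal ((gameOf (eGame A)).succ v true)) ↔
      NOK z (z v) (eNode A v)) := by
    intro v
    have hv : (v : ℕ) < eP A := v.2.trans_eq (eGame_length A)
    obtain ⟨h1, h2⟩ := inR_eNode A hv
    rw [eGame_succ, eGame_succ, eGame_kind, cond_false, cond_true, zv_eq A z _ h1, zv_eq A z _ h2]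
    rfl
  constructor
  · intro h p hp
    have hp' : p < (eGame A).1.length := by rw [eGame_length]; exact hp
    exact (key ⟨p, hp'⟩).1 (h ⟨p, hp'⟩)
  · intro h v
    have hv : (v : ℕ) < eP A := v.2.trans_eq (eGame_length A)
    exact (key v).2 (h v hv)

theorem value_iff_eSol : (∃ h : (eGame A).2 < (eGame A).1.length,
    (gameOf (eGame A)).ValueAtLeastHalf ⟨(eGame A).2, h⟩) ↔ ∃ z, ESol A z := by
  constructor
  · rintro ⟨h, hv⟩
    obtain ⟨z, hz, h0⟩ := rsub_of_value _ (eGame_stopping A) _ hv
    refine ⟨fun p => if hp : p < (eGame A).1.length then z ⟨p, hp⟩ else 0, ?_, ?_⟩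
    · rw [← rsub_iff]
      have : (fun v : Fin (eGame A).1.length =>
          (fun p => if hp : p < (eGame A).1.length then z ⟨p, hp⟩ else 0) (v : ℕ)) = z := by
        funext v; simp
      rw [this]
      exact hz
    · have h1 : eT A + A.length + 1 < (eGame A).1.length := h
      simp only [h1, dite_true]
      exact h0
  · rintro ⟨z, hz, h0⟩
    exact ⟨eStart_lt A, value_of_rsub _ (eGame_stopping A) _ (fun v => z v)
      ((rsub_iff A z).2 hz) h0⟩

end Pool.Agent.Work.MP_85af13_lc.G.E2
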