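import Pool.Agent.Work.MP_85af13_lc.G.E2.Defs
import Pool.Agent.Work.MP_85af13_lc.G.ADefs
import Pool.Agent.Work.MP_62a643_lc.Values

/-!
Numbers of nodes.
-/

set_option autoImplicit false
set_option linter.unusedSimpArgs false

namespace Pool.Agent.Work.MP_85af13_lc.G.E2

open Pool.Agent.Work.PolyTime
open Pool.Agent.Work.MP_62a643_lc (dv)

variable (A : Arena)

theorem sum_le_of_mem {l : List ℕ} {a : ℕ} (h : a ∈ l) : a ≤ l.sum := List.le_sum_of_mem h

theorem edge_len {v : ℕ} {e : WEdge} (he : e ∈ edges A v) : e.2.2.length + 1 ≤ eL A := by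
  unfold eL
  apply List.le_sum_of_mem
  rw [List.mem_map]
  refine ⟨e, ?_, rfl⟩
  rw [List.mem_flatMap]
  unfold edges at he
  by_cases hv : v < A.length
  · rw [List.getD_eq_getElem _ _ hv] at he
    exact ⟨A[v], List.getElem_mem hv, he⟩
  · rw [List.getD_eq_default _ _ (by omega)] at he
    simp at he

theorem len_le_sum {α : Type} (l : List α) (f : α → ℕ) (h : ∀ a, 1 ≤ f a) :
    l.length ≤ (l.map f).sum := by
  induction l with
  | nil => simp
  | cons a l ih => simp only [List.length_cons, List.map_cons, List.sum_cons]; have := h a; omega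

theorem deg_le (v : ℕ) : (edges A v).length ≤ eL A := by
  by_cases hv : v < A.length
  · have h1 : (edges A v).length ≤ ((edges A v).map fun e => e.2.2.length + 1).sum :=
      len_le_sum _ _ (fun _ => by omega)
    refine h1.trans ?_
    unfold eL edges
    rw [List.getD_eq_getElem _ _ hv]
    have h2 : A[v] ∈ A := List.getElem_mem hv
    generalize A[v] = a at h2
    clear hv h1
    induction A with
    | nil => simp at h2
    | cons b l ih =>
      rw [List.flatMap_cons, List.map_append, List.sum_append]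
      rcases List.mem_cons.1 h2 with rfl | h
      · omega
      · have := ih h; omega
  · unfold edges
    rw [List.getD_eq_default _ _ (by omega)]
    simp

theorem binVal_lt (w : List Bool) : binVal w < 2 ^ w.length := by
  induction w with
  | nil => simp [binVal]
  | cons b w ih =>
    rw [binVal, List.length_cons, pow_succ]
    have : b.toNat ≤ 1 := by cases b <;> simp
    omega

theorem tot_lt : tot A < 2 ^ eL A := by
  unfold tot eL
  induction A.flatMap Prod.snd with
  | nil => simp
  | cons e l ih =>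
    simp only [List.map_cons, List.sum_cons]
    have h1 := binVal_lt e.2.2
    rw [pow_add, pow_add, pow_one]
    have h2 : 0 < 2 ^ e.2.2.length := by positivity
    have h3 : 0 < 2 ^ (l.map fun e => e.2.2.length + 1).sum := by positivity
    nlinarith

theorem eB_pos : 2 ≤ eB A := by unfold eB; omega

theorem edges_nil_of_ge {v : ℕ} (h : A.length ≤ v) : edges A v = [] := by
  unfold edges
  rw [List.getD_eq_default _ _ h]

theorem lt_of_edges {v : ℕ} (h : edges A v ≠ []) : v < A.length := by
  by_contra hcon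
  exact h (edges_nil_of_ge A (by omega))

theorem eL_pos_of_edges {v : ℕ} (h : edges A v ≠ []) : 0 < eL A :=
  lt_of_lt_of_le (List.length_pos_of_ne_nil h) (deg_le A v)

theorem ix_inner {i c : ℕ} (hi : i < eL A) (hc : c < eB A) : i * eB A + c < eM A := by
  unfold eM
  calc i * eB A + c < i * eB A + eB A := by omega
    _ = (i + 1) * eB A := by ring
    _ ≤ eL A * eB A := Nat.mul_le_mul_right _ hi

theorem ix_lt {v i c : ℕ} (hv : v < A.length) (hi : i < eL A) (hc : c < eB A) :
    ix A v i c < eT A := by
  have h1 := ix_inner A hi hc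
  unfold ix eT
  calc v * eM A + i * eB A + c < v * eM A + eM A := by omega
    _ = (v + 1) * eM A := by ring
    _ ≤ A.length * eM A := Nat.mul_le_mul_right _ hv

/-- Coordinates of a node. -/
def cV (p : ℕ) : ℕ := p / eM A
/-- Coordinates of a node. -/
def cI (p : ℕ) : ℕ := p % eM A / eB A
/-- Coordinates of a node. -/
def cC (p : ℕ) : ℕ := p % eM A % eB A

theorem coords {v i c : ℕ} (hi : i < eL A) (hc : c < eB A) :
    cV A (ix A v i c) = v ∧ cI A (ix A v i c) = i ∧ cC A (ix A v i c) = c := by
  have h1 := ix_inner A hi hc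
  have h2 : ix A v i c = (i * eB A + c) + eM A * v := by unfold ix; ring
  have h3 : i * eB A + c = c + eB A * i := by ring
  have hM : 0 < eM A := by omega
  have hB : 0 < eB A := by omega
  have h4 : ix A v i c % eM A = i * eB A + c := by
    rw [h2, Nat.add_mul_mod_self_left, Nat.mod_eq_of_lt h1]
  refine ⟨?_, ?_, ?_⟩
  · unfold cV
    rw [h2, Nat.add_mul_div_left _ _ hM, Nat.div_eq_of_lt h1, zero_add]
  · unfold cI
    rw [h4, h3, Nat.add_mul_div_left _ _ hB, Nat.div_eq_of_lt hc, zero_add]
  · unfold cC
    rw [h4, h3, Nat.add_mul_mod_self_left, Nat.mod_eq_of_lt hc]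

theorem exists_coords {p : ℕ} (hp : p < eT A) :
    ∃ v i c, v < A.length ∧ i < eL A ∧ c < eB A ∧ p = ix A v i c := by
  have hM : 0 < eM A := by
    by_contra h
    have : eM A = 0 := by omega
    simp [eT, this] at hp
  have hB : 0 < eB A := by have := eB_pos A; omega
  refine ⟨cV A p, cI A p, cC A p, ?_, ?_, ?_, ?_⟩
  · unfold cV
    exact Nat.div_lt_of_lt_mul (by rw [mul_comm]; exact hp)
  · unfold cI
    apply Nat.div_lt_of_lt_mul
    have := Nat.mod_lt p hM
    rw [mul_comm]
    exact this
  · exact Nat.mod_lt _ hB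
  · unfold ix cV cI cC
    have h1 := Nat.div_add_mod p (eM A)
    have h2 := Nat.div_add_mod (p % eM A) (eB A)
    nlinarith

theorem eNode_eq {p : ℕ} (hp : p < eT A) : eNode A p = eBlock A (cV A p) (cI A p) (cC A p) := by
  have hM : 0 < eM A := by
    by_contra h
    have : eM A = 0 := by omega
    simp [eT, this] at hp
  have hB : 0 < eB A := by have := eB_pos A; omega
  have h1 : p - p / eM A * eM A = p % eM A := by
    have := Nat.div_add_mod p (eM A)
    rw [mul_comm] at this
    omega
  have h2 : p % eM A - p % eM A / eB A * eB A = p % eM A % eB A := by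
    have := Nat.div_add_mod (p % eM A) (eB A)
    rw [mul_comm] at this
    omega
  unfold eNode
  have h3 : p + 1 ≤ eT A := hp
  simp only [h3, decide_true, cond_true, Pool.Agent.Work.MP_62a643_lc.dv_eq hM,
    Pool.Agent.Work.MP_62a643_lc.dv_eq hB, h1, h2]
  rfl

theorem eNode_ix {v i c : ℕ} (hv : v < A.length) (hi : i < eL A) (hc : c < eB A) :
    eNode A (ix A v i c) = eBlock A v i c := by
  obtain ⟨h1, h2, h3⟩ := coords A (v := v) hi hc
  rw [eNode_eq A (ix_lt A hv hi hc), h1, h2, h3]

theorem eNode_tail (r : ℕ) : eNode A (eT A + r) = eTail A r := by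
  unfold eNode
  have h : ¬ (eT A + r + 1 ≤ eT A) := by omega
  simp only [h, decide_false, cond_false, Nat.add_sub_cancel_left]

/-- A function on nodes given by its values on the blocks and on the remaining nodes. -/
noncomputable def enc (Z : ℕ → ℕ → ℕ → ℝ) (Zt : ℕ → ℝ) (p : ℕ) : ℝ :=
  if p < eT A then Z (cV A p) (cI A p) (cC A p) else Zt (p - eT A)

theorem enc_ix (Z : ℕ → ℕ → ℕ → ℝ) (Zt : ℕ → ℝ) {v i c : ℕ} (hv : v < A.length) (hi : i < eL A)
    (hc : c < eB A) : enc A Z Zt (ix A v i c) = Z v i c := by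
  obtain ⟨h1, h2, h3⟩ := coords A (v := v) hi hc
  rw [enc, if_pos (ix_lt A hv hi hc), h1, h2, h3]

theorem enc_tail (Z : ℕ → ℕ → ℕ → ℝ) (Zt : ℕ → ℝ) (r : ℕ) : enc A Z Zt (eT A + r) = Zt r := by
  rw [enc, if_neg (by omega), Nat.add_sub_cancel_left]

end Pool.Agent.Work.MP_85af13_lc.G.E2
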