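import Pool.Agent.Work.MP_85af13_lc.G.E2.Defs
import Pool.Agent.Work.MP_85af13_lc.Ops
import Pool.Agent.Work.PolyTime.Pairs

/-!
The game of a min-max system is computed in polynomial time.
-/

set_option autoImplicit false
set_option linter.unusedSimpArgs false

namespace Pool.Agent.Work.MP_85af13_lc.G.E2

open Pool.Agent.Work.PolyTime
open Pool.Agent.Work.MP_62a643_lc (dv)

section

variable {α : Type} [Code α]

theorem PTime.dv2 {m i : α → ℕ} (hm : PTime m) (hi : PTime i) :
    PTime (fun x => dv (m x) (i x)) := by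
  unfold dv
  refine PTime.length (PTime.filter (p := fun x q => decide ((q + 1) * m x ≤ i x))
    (PTime.range hi) ?_)
  exact PTime.natLe (PTime.natMul (PTime.succ PTime.snd) (hm.comp PTime.fst)) (hi.comp PTime.fst)

theorem PTime.xor2 {a b : α → Bool} (ha : PTime a) (hb : PTime b) :
    PTime (fun x => xor (a x) (b x)) := by
  have h := PTime.cond ha (PTime.not hb) hb
  have h2 : (fun x => xor (a x) (b x)) = (fun x => bif a x then !b x else b x) := by
    funext x; cases a x <;> simp
  rw [h2]
  exact h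

theorem PTime.edgesP {A : α → Arena} {v : α → ℕ} (hA : PTime A) (hv : PTime v) :
    PTime (fun x => edges (A x) (v x)) := by
  unfold edges
  exact PTime.snd.comp (PTime.nth hA hv (PTime.const _))

theorem PTime.ownerP {A : α → Arena} {v : α → ℕ} (hA : PTime A) (hv : PTime v) :
    PTime (fun x => owner (A x) (v x)) := by
  unfold owner
  exact PTime.fst.comp (PTime.nth hA hv (PTime.const _))

theorem PTime.eL {A : α → Arena} (hA : PTime A) : PTime (fun x => E2.eL (A x)) := by
  unfold E2.eL
  refine PTime.listSum (PTime.map (f := fun _ (e : WEdge) => e.2.2.length + 1)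
    (PTime.flatMap (f := fun _ (a : Bool × List WEdge) => a.2) hA (by fun_prop)) ?_)
  exact PTime.succ (PTime.length (by fun_prop))

theorem PTime.eK {A : α → Arena} (hA : PTime A) : PTime (fun x => E2.eK (A x)) := by
  unfold E2.eK
  exact PTime.natAdd (PTime.natAdd (PTime.eL hA) (PTime.length hA)) (PTime.const _)

theorem PTime.eB {A : α → Arena} (hA : PTime A) : PTime (fun x => E2.eB (A x)) := by
  unfold E2.eB
  exact PTime.natAdd (PTime.natAdd (PTime.eK hA) (PTime.eL hA)) (PTime.const _)

theorem PTime.eM {A : α → Arena} (hA : PTime A) : PTime (fun x => E2.eM (A x)) := by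
  unfold E2.eM
  exact PTime.natMul (PTime.eL hA) (PTime.eB hA)

theorem PTime.eT {A : α → Arena} (hA : PTime A) : PTime (fun x => E2.eT (A x)) := by
  unfold E2.eT
  exact PTime.natMul (PTime.length hA) (PTime.eM hA)

theorem PTime.eJ {A : α → Arena} (hA : PTime A) : PTime (fun x => E2.eJ (A x)) := by
  unfold E2.eJ
  exact PTime.natAdd (PTime.natAdd (PTime.eL hA) (PTime.length hA)) (PTime.const _)

theorem PTime.eP {A : α → Arena} (hA : PTime A) : PTime (fun x => E2.eP (A x)) := by
  unfold E2.eP
  exact PTime.natAdd (PTime.natAdd (PTime.natAdd (PTime.eT hA) (PTime.length hA))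
    (PTime.const _)) (PTime.eJ hA)

theorem PTime.ix {A : α → Arena} {v i c : α → ℕ} (hA : PTime A) (hv : PTime v) (hi : PTime i)
    (hc : PTime c) : PTime (fun x => E2.ix (A x) (v x) (i x) (c x)) := by
  unfold E2.ix
  exact PTime.natAdd (PTime.natAdd (PTime.natMul hv (PTime.eM hA))
    (PTime.natMul hi (PTime.eB hA))) hc

theorem PTime.eE {A : α → Arena} {v i : α → ℕ} (hA : PTime A) (hv : PTime v) (hi : PTime i) :
    PTime (fun x => E2.eE (A x) (v x) (i x)) := by
  unfold E2.eE
  exact PTime.nth (PTime.edgesP hA hv) hi (PTime.const _)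

theorem PTime.ePos {A : α → Arena} {v : α → ℕ} (hA : PTime A) (hv : PTime v) :
    PTime (fun x => E2.ePos (A x) (v x)) := by
  unfold E2.ePos
  exact PTime.cond (PTime.eq (PTime.edgesP hA hv) (PTime.const _))
    (PTime.inr (PTime.not (PTime.ownerP hA hv)))
    (PTime.inl (PTime.ix hA hv (PTime.const _) (PTime.const _)))

theorem PTime.eBit {A : α → Arena} {v i c : α → ℕ} (hA : PTime A) (hv : PTime v) (hi : PTime i)
    (hc : PTime c) : PTime (fun x => E2.eBit (A x) (v x) (i x) (c x)) := by
  unfold E2.eBit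
  have he := PTime.eE hA hv hi
  refine PTime.xor2 (PTime.fst.comp (PTime.snd.comp he)) (PTime.cond
    (PTime.eq hc (PTime.natAdd (PTime.eK hA) (PTime.const _))) (PTime.const _)
    (PTime.nth (PTime.snd.comp (PTime.snd.comp he))
      (PTime.natSub (PTime.natSub (PTime.eB hA) (PTime.const _)) hc) (PTime.const _)))

theorem PTime.eBlock {A : α → Arena} {v i c : α → ℕ} (hA : PTime A) (hv : PTime v) (hi : PTime i)
    (hc : PTime c) : PTime (fun x => E2.eBlock (A x) (v x) (i x) (c x)) := by
  unfold E2.eBlock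
  have he := PTime.eE hA hv hi
  have h1 := PTime.ix hA hv hi (PTime.const 1)
  have h2 := PTime.ix hA hv hi (PTime.succ hc)
  refine PTime.cond (PTime.eq hc (PTime.const _)) (PTime.prodMk (PTime.mkSome (PTime.ownerP hA hv))
    (PTime.prodMk (PTime.inl h1) (PTime.inl (PTime.cond (PTime.natLe
      (PTime.natAdd hi (PTime.const _)) (PTime.length (PTime.edgesP hA hv)))
      (PTime.ix hA hv (PTime.succ hi) (PTime.const _)) h1)))) ?_
  refine PTime.cond (PTime.natLe hc (PTime.eK hA)) (PTime.prodMk (PTime.const _)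
    (PTime.prodMk (PTime.ePos hA (PTime.fst.comp he)) (PTime.inl h2))) ?_
  exact PTime.prodMk (PTime.const _) (PTime.prodMk (PTime.inr (PTime.eBit hA hv hi hc))
    (PTime.cond (PTime.eq (PTime.succ hc) (PTime.eB hA))
      (PTime.inr (PTime.fst.comp (PTime.snd.comp he))) (PTime.inl h2)))

theorem PTime.eTail {A : α → Arena} {r : α → ℕ} (hA : PTime A) (hr : PTime r) :
    PTime (fun x => E2.eTail (A x) (r x)) := by
  unfold E2.eTail
  have hn := PTime.length hA
  have h1 := PTime.succ (PTime.natAdd (PTime.eT hA) hr)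
  refine PTime.cond (PTime.natLe (PTime.succ hr) hn) (PTime.prodMk (PTime.const _)
    (PTime.prodMk (PTime.ePos hA hr) (PTime.inl h1))) ?_
  refine PTime.cond (PTime.eq hr hn) (PTime.const _) ?_
  refine PTime.cond (PTime.eq hr (PTime.succ hn)) (PTime.prodMk (PTime.const _)
    (PTime.prodMk (PTime.inl (PTime.eT hA)) (PTime.inl h1))) ?_
  exact PTime.prodMk (PTime.const _) (PTime.prodMk
    (PTime.inr (PTime.eq hr (PTime.natAdd hn (PTime.const _))))
    (PTime.cond (PTime.eq (PTime.succ hr) (PTime.natAdd (PTime.natAdd hn (PTime.const _))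
      (PTime.eJ hA))) (PTime.const _) (PTime.inl h1)))

theorem PTime.eNode {A : α → Arena} {p : α → ℕ} (hA : PTime A) (hp : PTime p) :
    PTime (fun x => E2.eNode (A x) (p x)) := by
  unfold E2.eNode
  have hv := PTime.dv2 (PTime.eM hA) hp
  have hq := PTime.natSub hp (PTime.natMul hv (PTime.eM hA))
  have hi := PTime.dv2 (PTime.eB hA) hq
  exact PTime.cond (PTime.natLe (PTime.succ hp) (PTime.eT hA))
    (PTime.eBlock hA hv hi (PTime.natSub hq (PTime.natMul hi (PTime.eB hA))))
    (PTime.eTail hA (PTime.natSub hp (PTime.eT hA)))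

theorem PTime.eGame {A : α → Arena} (hA : PTime A) : PTime (fun x => E2.eGame (A x)) := by
  unfold E2.eGame
  refine PTime.prodMk (PTime.map (f := fun x p => E2.eNode (A x) p)
    (PTime.range (PTime.eP hA)) (PTime.eNode (hA.comp PTime.fst) PTime.snd))
    (PTime.succ (PTime.natAdd (PTime.eT hA) (PTime.length hA)))

end

end Pool.Agent.Work.MP_85af13_lc.G.E2
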