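import Pool.Agent.Work.MP_85af13_lc.G.E2.Chains
import Pool.Agent.Work.MP_85af13_lc.G.A.Box

/-!
A solution of the min-max system gives a labelling of the game.
-/

set_option autoImplicit false
set_option linter.unusedSimpArgs false

namespace Pool.Agent.Work.MP_85af13_lc.G.E2

open Pool.Agent.Work.PolyTime

variable (A : Arena) (x : ℕ → ℤ) (f : ℕ → ℕ)

/-- The label of the vertex `v`. -/
noncomputable def av (v : ℕ) : ℝ :=
  1 / 2 + (((x v : ℝ) - tot A) / 2 ^ eK A) / 2 ^ (eL A + 1)

/-- The label of the node `(v, i, 1)` and its successors: `j` steps before the rewards. -/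
noncomputable def cv (v i j : ℕ) : ℝ :=
  av A x (eE A v i).1 + (rw1 (eE A v i) (eL A) - av A x (eE A v i).1) / 2 ^ j

/-- Does the node `(v, i, 0)` have the label of the vertex `v`? -/
def act (v i : ℕ) : Prop := if owner A v then i ≤ f v else i < (edges A v).length

open Classical in
/-- Labels of the nodes of the blocks. -/
noncomputable def zB (v i c : ℕ) : ℝ :=
  if c = 0 then (if act A f v i then av A x v else cv A x v i (eK A))
  else if c ≤ eK A then cv A x v i (eK A + 1 - c) else rv A v i c

/-- Labels of the remaining nodes. -/
noncomputable def zT (r : ℕ) : ℝ :=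
  if r ≤ A.length then 1 / 2 - 1 / 2 ^ eJ A else if r = A.length + 1 then 1 / 2 else tv A r

variable {A x f}

theorem av_le {v : ℕ} (hx : x v ≤ tot A) : av A x v ≤ 1 / 2 := by
  unfold av
  have h1 : (x v : ℝ) - tot A ≤ 0 := by
    have : (x v : ℝ) ≤ tot A := by exact_mod_cast hx
    linarith
  have h2 : ((x v : ℝ) - tot A) / 2 ^ eK A / 2 ^ (eL A + 1) ≤ 0 :=
    div_nonpos_of_nonpos_of_nonneg (div_nonpos_of_nonpos_of_nonneg h1 (by positivity))
      (by positivity)
  linarith

theorem av_ge {v : ℕ} (hx : 0 ≤ x v) : 1 / 2 - 1 / 2 ^ eJ A ≤ av A x v := by
  unfold av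
  have h0 : (0 : ℝ) ≤ x v := by exact_mod_cast hx
  have h1 : ((tot A : ℕ) : ℝ) ≤ 2 ^ eL A := by exact_mod_cast (tot_lt A).le
  have h2 : -(2 : ℝ) ^ eL A ≤ (x v : ℝ) - tot A := by linarith
  have h3 : -(2 : ℝ) ^ eL A / 2 ^ eK A / 2 ^ (eL A + 1) ≤
      ((x v : ℝ) - tot A) / 2 ^ eK A / 2 ^ (eL A + 1) :=
    div_le_div_of_nonneg_right (div_le_div_of_nonneg_right h2 (by positivity)) (by positivity)
  have h4 : -(2 : ℝ) ^ eL A / 2 ^ eK A / 2 ^ (eL A + 1) = -(1 / 2 ^ eJ A) := by
    have : eJ A = eK A + 1 := by unfold eJ eK; ring
    rw [this, pow_succ, pow_succ]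
    field_simp
  linarith

/-- The main inequality. -/
theorem av_le_cv {v i : ℕ} (hx : x (eE A v i).1 ≤ tot A)
    (h : x v ≤ x (eE A v i).1 + wgt (eE A v i)) : av A x v ≤ cv A x v i (eK A) := by
  unfold cv av rw1
  have h1 : (x v : ℝ) ≤ x (eE A v i).1 + wgt (eE A v i) := by exact_mod_cast h
  have h2 : (x (eE A v i).1 : ℝ) - tot A ≤ 0 := by
    have : (x (eE A v i).1 : ℝ) ≤ tot A := by exact_mod_cast hx
    linarith
  set e : ℝ := 1 / 2 ^ eK A with he
  have he0 : 0 < e := by positivity
  set d : ℝ := (x (eE A v i).1 : ℝ) - tot A with hd
  set w : ℝ := (wgt (eE A v i) : ℝ) with hw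
  have h3 : (x v : ℝ) - tot A ≤ d + w := by linarith
  have h4 : ((x v : ℝ) - tot A) * e ≤ (d + w) * e := mul_le_mul_of_nonneg_right h3 he0.le
  have h5 : (d + w) * e ≤ d * e + (w - d * e) * e := by
    have : 0 ≤ -(d * e * e) := by
      have := mul_nonneg (mul_nonneg (neg_nonneg.2 h2) he0.le) he0.le
      linarith
    linarith
  have h6 : ((x v : ℝ) - tot A) * e * (1 / 2 ^ (eL A + 1)) ≤
      (d * e + (w - d * e) * e) * (1 / 2 ^ (eL A + 1)) :=
    mul_le_mul_of_nonneg_right (h4.trans h5) (by positivity)
  have h7 : ((x v : ℝ) - tot A) / 2 ^ eK A / 2 ^ (eL A + 1) =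
      ((x v : ℝ) - tot A) * e * (1 / 2 ^ (eL A + 1)) := by rw [he]; ring
  have h8 : 1 / 2 + d / 2 ^ eK A / 2 ^ (eL A + 1) +
      (1 / 2 + w / 2 ^ (eL A + 1) - (1 / 2 + d / 2 ^ eK A / 2 ^ (eL A + 1))) / 2 ^ eK A =
      1 / 2 + (d * e + (w - d * e) * e) * (1 / 2 ^ (eL A + 1)) := by rw [he]; ring
  rw [h7, h8]
  linarith

theorem cv_step (v i j : ℕ) : 2 * cv A x v i (j + 1) = av A x (eE A v i).1 + cv A x v i j := by
  unfold cv
  rw [pow_succ]
  field_simp
  ring

theorem cv_zero (v i : ℕ) : cv A x v i 0 = rw1 (eE A v i) (eL A) := by
  unfold cv; simp

theorem eSol_of_sol (hc : Closed A) (hx : ∀ v, 0 ≤ x v ∧ x v ≤ tot A) (hs : Sol A x)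
    (hf : ∀ v < A.length, owner A v = true →
      f v < (edges A v).length ∧ x v ≤ x (eE A v (f v)).1 + wgt (eE A v (f v))) :
    ESol A (enc A (zB A x f) (zT A)) := by
  classical
  set z := enc A (zB A x f) (zT A) with hz
  have hB2 := eB_pos A
  have hKB : eK A + 1 < eB A ∨ eK A + 1 < eB A := by unfold eB; omega
  have hK : 2 ≤ eK A := by unfold eK; omega
  have hB : eB A = eK A + eL A + 2 := rfl
  have hblk : ∀ v i c, v < A.length → i < eL A → c < eB A → z (ix A v i c) = zB A x f v i c :=
    fun v i c hv hi hc => enc_ix A _ _ hv hi hc
  have htail : ∀ r, z (eT A + r) = zT A r := fun r => enc_tail A _ _ r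
  -- the label of a vertex is at most the value of its position
  have hpos : ∀ u < A.length, av A x u ≤ zv z (ePos A u) := by
    intro u hu
    by_cases hne : edges A u = []
    · have ho : owner A u = false := by
        by_contra h
        have h1 := (hf u hu (by simpa using h)).1
        rw [hne] at h1
        simp at h1
      have h1 := av_le (A := A) (hx u).2
      simp only [ePos, hne, ho, decide_true, cond_true, zv, Bool.not_false, if_true]
      linarith
    · simp only [ePos, hne, decide_false, cond_false, zv]
      rw [hblk u 0 0 hu (eL_pos_of_edges A hne) (by omega)]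
      have hact : act A f u 0 := by
        unfold act
        cases owner A u
        · simpa using List.length_pos_of_ne_nil hne
        · simp
      simp [zB, hact]
  have htgt : ∀ v < A.length, ∀ i, (eE A v i).1 < A.length := by
    intro v hv i
    unfold eE
    by_cases h : i < (edges A v).length
    · rw [List.getD_eq_getElem _ _ h]
      exact hc v hv _ (List.getElem_mem h)
    · rw [List.getD_eq_default _ _ (by omega)]
      simp only
      omega
  have hsmall : ∀ r < A.length, 1 / 2 - 1 / 2 ^ eJ A ≤ zv z (ePos A r) := fun r hr =>
    (av_ge (hx r).1).trans (hpos r hr)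
  refine ⟨fun p hp => ?_, ?_⟩
  · by_cases hpT : p < eT A
    · obtain ⟨v, i, c, hv, hi, hcB, rfl⟩ := exists_coords A hpT
      rw [eNode_ix A hv hi hcB, hblk v i c hv hi hcB]
      have hd := deg_le A v
      by_cases h0 : c = 0
      · subst h0
        have h1 : z (ix A v i 1) = cv A x v i (eK A) := by
          rw [hblk v i 1 hv hi (by omega)]
          have h2 : (1 : ℕ) ≤ eK A := by omega
          simp [zB, h2]
        cases ho : owner A v
        · -- minimizer
          have hact : act A f v i ↔ i < (edges A v).length := by simp [act, ho]
          by_cases hi2 : i < (edges A v).length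
          · have h3 : zB A x f v i 0 = av A x v := by simp [zB, hact.2 hi2]
            have hin : eE A v i ∈ edges A v := by
              unfold eE
              rw [List.getD_eq_getElem _ _ hi2]
              exact List.getElem_mem hi2
            have h4 : av A x v ≤ cv A x v i (eK A) :=
              av_le_cv (hx _).2 ((hs v hv).2 ho _ hin)
            rw [h3]
            by_cases h5 : i + 2 ≤ (edges A v).length
            · simp only [NOK, eBlock, ho, h5, decide_true, cond_true, kindOf, zv]
              refine ⟨by rw [h1]; exact h4, ?_⟩
              rw [hblk v (i + 1) 0 hv (by omega) (by omega)]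
              have hact2 : act A f v (i + 1) := by
                simp only [act, ho]
                simp only [Bool.false_eq_true, if_false]
                omega
              simp [zB, hact2]
            · simp only [NOK, eBlock, ho, h5, decide_true, decide_false, cond_true, cond_false,
                kindOf, zv]
              rw [h1]
              exact ⟨h4, h4⟩
          · have h3 : zB A x f v i 0 = cv A x v i (eK A) := by
              have : ¬ act A f v i := fun h => hi2 (hact.1 h)
              simp [zB, this]
            have h5 : ¬ i + 2 ≤ (edges A v).length := by omega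
            rw [h3]
            simp only [NOK, eBlock, ho, h5, decide_true, decide_false, cond_true, cond_false,
              kindOf, zv]
            rw [h1]
            exact ⟨le_rfl, le_rfl⟩
        · -- maximizer
          obtain ⟨hf1, hf2⟩ := hf v hv ho
          have hact : act A f v i ↔ i ≤ f v := by simp [act, ho]
          rcases lt_trichotomy i (f v) with h2 | h2 | h2
          · have h3 : zB A x f v i 0 = av A x v := by simp [zB, hact.2 h2.le]
            have h5 : i + 2 ≤ (edges A v).length := by omega
            rw [h3]
            simp only [NOK, eBlock, ho, h5, decide_true, cond_true, kindOf, zv]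
            right
            rw [hblk v (i + 1) 0 hv (by omega) (by omega)]
            have hact2 : act A f v (i + 1) := by
              simp only [act, ho, if_true]
              omega
            simp [zB, hact2]
          · have h3 : zB A x f v i 0 = av A x v := by simp [zB, hact.2 h2.le]
            rw [← h2] at hf2
            have h4 : av A x v ≤ cv A x v i (eK A) := av_le_cv (hx _).2 hf2
            rw [h3]
            simp only [NOK, eBlock, ho, decide_true, cond_true, kindOf, zv]
            left
            rw [h1]
            exact h4
          · have h3 : zB A x f v i 0 = cv A x v i (eK A) := by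
              have : ¬ act A f v i := fun h => absurd (hact.1 h) (by omega)
              simp [zB, this]
            rw [h3]
            simp only [NOK, eBlock, ho, decide_true, cond_true, kindOf, zv]
            left
            rw [h1]
      · by_cases h2 : c ≤ eK A
        · have h3 : zB A x f v i c = cv A x v i (eK A + 1 - c) := by simp [zB, h0, h2]
          obtain ⟨j, hj⟩ : ∃ j, eK A + 1 - c = j + 1 := ⟨eK A - c, by omega⟩
          have h4 : z (ix A v i (c + 1)) = cv A x v i j := by
            rw [hblk v i (c + 1) hv hi (by omega)]
            by_cases h5 : c + 1 ≤ eK A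
            · have h6 : eK A + 1 - (c + 1) = j := by omega
              simp only [zB, h5, if_true, h6]
              simp
            · have h6 : c = eK A := by omega
              have h7 : j = 0 := by omega
              have h8 : ¬ (eK A + 1 ≤ eK A) := by omega
              rw [h6, h7, cv_zero]
              simp [zB, h8, rv]
          rw [h3, hj]
          simp only [NOK, eBlock, h0, h2, decide_true, decide_false, cond_true, cond_false, kindOf]
          have h5 : zv z (Sum.inl (ix A v i (c + 1))) = z (ix A v i (c + 1)) := rfl
          rw [h5, h4, cv_step]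
          have h6 := hpos _ (htgt v hv i)
          linarith
        · have h3 : zB A x f v i c = rv A v i c := by simp [zB, h0, h2]
          have h4 := rv_step A v i c (by omega) hcB
          rw [h3]
          by_cases h7 : c + 1 = eB A
          · simp only [NOK, eBlock, h0, h2, h7, decide_true, decide_false, cond_true, cond_false,
              kindOf, zv]
            rw [if_pos h7] at h4
            unfold b01 at h4
            exact h4.le
          · simp only [NOK, eBlock, h0, h2, h7, decide_true, decide_false, cond_true, cond_false,
              kindOf, zv]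
            rw [if_neg h7] at h4
            unfold b01 at h4
            have h8 : z (ix A v i (c + 1)) = rv A v i (c + 1) := by
              rw [hblk v i (c + 1) hv hi (by omega)]
              have h9 : ¬ c + 1 ≤ eK A := by omega
              simp [zB, h9]
            rw [h8]
            exact h4.le
    · obtain ⟨r, rfl⟩ : ∃ r, p = eT A + r := ⟨p - eT A, by omega⟩
      have hr : r < A.length + 2 + eJ A := by unfold eP at hp; omega
      rw [eNode_tail, htail]
      have hnext : zv z (Sum.inl (eT A + r + 1)) = zT A (r + 1) := by
        rw [← htail (r + 1)]; rfl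
      have hp2 : (0 : ℝ) ≤ 1 / 2 ^ eJ A := by positivity
      by_cases h1 : r + 1 ≤ A.length
      · have h2 : zT A r = 1 / 2 - 1 / 2 ^ eJ A := by
          simp only [zT]; rw [if_pos (by omega)]
        have h3 : zT A (r + 1) = 1 / 2 - 1 / 2 ^ eJ A := by
          simp only [zT]; rw [if_pos h1]
        simp only [NOK, eTail, h1, decide_true, cond_true, kindOf]
        rw [hnext, h2, h3]
        exact ⟨hsmall r (by omega), le_rfl⟩
      · by_cases h2 : r = A.length
        · have h3 : zT A r = 1 / 2 - 1 / 2 ^ eJ A := by
            simp only [zT]; rw [if_pos (by omega)]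
          rw [h3]
          have h4 : ¬ (A.length + 1 ≤ A.length) := by omega
          simp only [NOK, eTail, h2, h4, decide_true, decide_false, cond_true, cond_false, kindOf,
            zv, if_true]
          constructor <;> linarith
        · by_cases h3 : r = A.length + 1
          · have h4 : zT A r = 1 / 2 := by
              simp only [zT]; rw [if_neg (by omega), if_pos h3]
            have h5 : zT A (r + 1) = 1 / 2 + 1 / 2 ^ eJ A := by
              simp only [zT, tv]
              rw [if_neg (by omega), if_neg (by omega), if_pos (by omega)]
            have h6 : zv z (Sum.inl (eT A)) = 1 / 2 - 1 / 2 ^ eJ A := by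
              have := htail 0
              rw [add_zero] at this
              simp only [zv, this, zT]
              rw [if_pos (by omega)]
            simp only [NOK, eTail, h1, h2, h3, decide_true, decide_false, cond_true, cond_false,
              kindOf]
            have h7 : ¬ (A.length + 1 + 1 ≤ A.length) := by omega
            have h8 : ¬ (A.length + 1 = A.length) := by omega
            simp only [h7, h8, decide_false, cond_false]
            rw [← h3, hnext, h4, h5, h6]
            linarith
          · have h4 : zT A r = tv A r := by
              simp only [zT]; rw [if_neg (by omega), if_neg h3]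
            have h5 := tv_step A r (by omega) hr
            rw [h4]
            by_cases h6 : r + 1 = A.length + 2 + eJ A
            · have h10 : ¬ (A.length + 2 + eJ A ≤ A.length) := by omega
              simp only [NOK, eTail, h1, h2, h3, h6, h10, decide_true, decide_false, cond_true,
                cond_false, kindOf, zv, if_true]
              rw [if_pos h6] at h5
              unfold b01 at h5
              exact h5.le
            · simp only [NOK, eTail, h1, h2, h3, h6, decide_true, decide_false, cond_true,
                cond_false, kindOf]
              rw [if_neg h6] at h5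
              have h7 : zT A (r + 1) = tv A (r + 1) := by
                simp only [zT]; rw [if_neg (by omega), if_neg (by omega)]
              rw [hnext, h7]
              unfold b01 at h5
              exact h5.le
  · have h1 : eT A + A.length + 1 = eT A + (A.length + 1) := by ring
    rw [h1, htail]
    simp only [zT]
    rw [if_neg (by omega)]
    simp

theorem eSol_of_feasible (hc : Closed A) (h : Feasible A) : ∃ z, ESol A z := by
  classical
  obtain ⟨x, hs, hx⟩ := box A hc h
  have h1 : ∀ v, ∃ j : ℕ, v < A.length → owner A v = true →
      j < (edges A v).length ∧ x v ≤ x (eE A v j).1 + wgt (eE A v j) := by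
    intro v
    by_cases hv : v < A.length ∧ owner A v = true
    · obtain ⟨e, he, h2⟩ := (hs v hv.1).1 hv.2
      obtain ⟨j, hj, rfl⟩ := List.getElem_of_mem he
      refine ⟨j, fun _ _ => ⟨hj, ?_⟩⟩
      have h3 : eE A v j = (edges A v)[j] := by
        unfold eE
        rw [List.getD_eq_getElem _ _ hj]
      rw [h3]
      exact h2
    · exact ⟨0, fun h2 h3 => absurd ⟨h2, h3⟩ hv⟩
  choose f hf using h1
  exact ⟨_, eSol_of_sol hc hx hs (f := f) hf⟩

end Pool.Agent.Work.MP_85af13_lc.G.E2
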