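import Pool.Agent.Work.MP_85af13_lc.G.E2.Down
import Pool.Agent.Work.MP_85af13_lc.G.E2.Up
import Pool.Agent.Work.MP_85af13_lc.G.E2.Time
import Pool.Agent.Work.MP_85af13_lc.G.D.RedD
import Pool.Agent.Work.MP_85af13_lc.G.A.RedA

/-!
Min-max systems, and hence mean payoff games, reduce to simple stochastic games.
-/

set_option autoImplicit false

namespace Pool.Agent.Work.MP_85af13_lc.G

open Pool.Agent.Work.PolyTime

theorem minMax_le_stochastic : PolyReducible minMax stochastic := by
  have hM : minMax = problem Closed Feasible := rfl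
  rw [hM, stochastic_eq]
  refine reducible_of (t := closedB) (F := fun A => E2.eGame A) closedB_iff
    (PTime.closedB PTime.id) (E2.PTime.eGame PTime.id) (fun A _ => E2.eStart_lt A)
    (fun A hA => ?_)
  rw [E2.value_iff_eSol]
  constructor
  · intro h
    exact E2.eSol_of_feasible hA h
  · rintro ⟨z, hz⟩
    exact E2.feasible_of_eSol hz hA

theorem meanPayoff_le_stochastic' : PolyReducible meanPayoff stochastic :=
  meanPayoff_le_minMax.trans minMax_le_stochastic

end Pool.Agent.Work.MP_85af13_lc.G
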